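import Pool.Agent.Y602.SP.Sparse

/-!
# Deep and negligible sublinear shift-complex classes: every larger bound, sparse lengths
-/

set_option autoImplicit false

namespace Pool.Agent.Results.MP_c57dc8_lc.EveryLargerOrder

open Filter Pool.Agent.Helper227 Pool.Agent.H561R3.SC Pool.Agent.Y602.SP

/-- There are an order function `g` with `g(n)/n → 0` and an infinite decidable set `Λ` of lengths,
every element of which is at least twice the preceding one, such that for every function `f`
(computable or not, monotone or not) which on `Λ` is at least `g` up to an additive constant, for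
every universal prefix-free machine and every `c`, the class `SC(f, c)` is deep (with respect to
every left-c.e. continuous semimeasure) and negligible. -/
theorem result : ∃ (g : ℕ → ℕ) (Λ : Set ℕ), Computable g ∧ Monotone g ∧ Tendsto g atTop atTop ∧
    Tendsto (fun n : ℕ => (g n : ℝ) / n) atTop (nhds 0) ∧
    (ComputablePred fun l => l ∈ Λ) ∧ Λ.Infinite ∧ (∀ l ∈ Λ, ∀ l' ∈ Λ, l < l' → 2 * l ≤ l') ∧
    ∀ (f : ℕ → ℕ) (d : ℕ), (∀ l ∈ Λ, g l ≤ f l + d) →
      ∀ U : List Bool →. List Bool, IsUniversal U → ∀ c : ℕ,
        (∀ ν : List Bool → ℝ, IsSemimeasure ν → LeftCE ν → Deep ν (SC U f c)) ∧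
        lam {Y | ∃ X ∈ SC U f c, TLe X Y} = 0 := by
  refine ⟨FF, Lam, pr_FF.to_comp, FF_mono, FF_tendsto, FF_sublinear, computable, infinite,
    lacunary, fun f d hf U hU c => ?_⟩
  have h : ∀ ν : List Bool → ℝ, IsSemimeasure ν → LeftCE ν → Deep ν (SC U f c) :=
    fun ν hν hce => deep' hU hf c hν hce
  exact ⟨h, negligible_of h⟩

end Pool.Agent.Results.MP_c57dc8_lc.EveryLargerOrder
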